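import Pool.Agent.Lib.MP_8113ca_al.Two.Good

set_option autoImplicit false

open Pool.Agent.Lib.MP_8113ca_al

/-- Let `σ` be a partition of the set of all primes, `G` a finite group and `A` a subgroup of `G`.
Call `(π, P)` good (`IsGood A π P`) if `P` is a `π`-subgroup of `G` (`π` any set of primes) such that
for all `g` the intersection of `A` with `g P g⁻¹` is a Hall `π`-subgroup of `A`.

(1) Let `N` be the core of `A` in `G`. Suppose that for every class `σ i` which contains a prime divisor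
of `|A : N|` there is a good `(σ i, H)`, and that for every chief factor `L / K` of `A` above `N`, with
`n = |L : K|`,
* `n` is a `σ i ∪ σ j`-number for some `i` and `j`, or
* `n` is a `π ∪ ρ`-number but neither a `π`- nor a `ρ`-number for some good `(π, P)`, `(ρ, Q)` with
  `π` and `ρ` disjoint.
Then `A` is `σ`-subnormal in `G`.

(2) Suppose that `A ∩ H` is a Hall `σ j`-subgroup of `A` for all `j` and all Hall `σ j`-subgroups `H`
of `G`, and that for some set `J` of classes, with union `π`, the group `G` has a Hall `π`-subgroup `P`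
and a Hall `π'`-subgroup `Q` such that `P` has Hall `σ j`-subgroups for `j` in `J`, `Q` has Hall
`σ j`-subgroups for `j` not in `J`, and every chief factor of `P` and of `Q` meets at most two classes
(for instance: for some `i` the group `G` has a Hall `σ i`-subgroup and a `σ`-soluble Hall
`(σ i)'`-subgroup). Then `A` is `σ`-subnormal in `G`. -/
theorem Pool.Agent.Results.MP_8113ca_al.TwoClassFactors.result
    {I : Type*} (σ : I → Set ℕ) (hσ : IsPrimePartition σ)
    {G : Type*} [Group G] [Finite G] (A : Subgroup G) :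
    ((∀ i, (∃ p ∈ σ i, p ∣ A.normalCore.relIndex A) → ∃ H : Subgroup G, IsGood A (σ i) H) →
      (∀ K L : Subgroup A, IsChiefFactor K L → A.normalCore.subgroupOf A ≤ K →
        (∃ i j, IsPiNumber (σ i ∪ σ j) (K.relIndex L)) ∨
        (∃ (π ρ : Set ℕ) (P Q : Subgroup G), IsGood A π P ∧ IsGood A ρ Q ∧ Disjoint π ρ ∧
          IsPiNumber (π ∪ ρ) (K.relIndex L) ∧ ¬ IsPiNumber π (K.relIndex L) ∧
          ¬ IsPiNumber ρ (K.relIndex L))) →
      IsSigmaSubnormal σ A) ∧
    ((∀ (j : I) (H : Subgroup G), IsHall (σ j) H → IsHall (σ j) (H.subgroupOf A)) →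
      (∃ (J : Set I) (P Q : Subgroup G), IsHall (⋃ j ∈ J, σ j) P ∧ IsHall (⋃ j ∈ Jᶜ, σ j) Q ∧
        (∀ j ∈ J, ∃ T : Subgroup P, IsHall (σ j) T) ∧ (∀ j ∈ Jᶜ, ∃ T : Subgroup Q, IsHall (σ j) T) ∧
        (∀ K L : Subgroup P, IsChiefFactor K L → ∃ i j, IsPiNumber (σ i ∪ σ j) (K.relIndex L)) ∧
        (∀ K L : Subgroup Q, IsChiefFactor K L → ∃ i j, IsPiNumber (σ i ∪ σ j) (K.relIndex L))) →
      IsSigmaSubnormal σ A) := by
  refine ⟨sigmaSubnormal_of_good hσ A, ?_⟩
  rintro hA ⟨J, P, Q, hP, hQ, hPH, hQH, hP2, hQ2⟩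
  exact sigmaSubnormal_of_two_hall hσ J P Q hP hQ hPH hQH hP2 hQ2 A hA
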